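import Mathlib
import Pool.Agent.Lib.helper22.Ponag

set_option autoImplicit false

namespace Pool.Agent.Results.MP_2f53c7_gt.Counterexample

open H22P

theorem result : ∃ (X : Type) (_ : TopologicalSpace X),
    Infinite X ∧ T2Space X ∧ RegularSpace X ∧ ¬ AliceWins X ∧ ¬ TotallyParacompact X :=
  ⟨X, inferInstance, inferInstance, inferInstance, inferInstance, not_alice bob, not_tp⟩

end Pool.Agent.Results.MP_2f53c7_gt.Counterexample
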